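import Pool.Agent.LeoD.AlgStmts

/-!
# FLA: the local condition in the first case
-/

set_option autoImplicit false

open NumberField NumberField.InfinitePlace NumberField.mixedEmbedding IsDedekindDomain Module
open Pool.Agent.Helper85_Leo Pool.Agent.LeoK Pool.Agent.LeoG Pool.Agent.LeoC Pool.Agent.LeoD

namespace Pool.Agent.LeoD.H33

/-- The coefficients of `s` in the cube of `(A₀ + B₀ s) x + (A₁ + B₁ s) y`, divided by 3. -/
def ga {A : Type} [CommRing A] (m A₀ B₀ A₁ B₁ : A) : Fin 4 → A :=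
  ![A₀ ^ 2 * B₀ + m * B₀ ^ 3, (A₀ ^ 2 + 3 * m * B₀ ^ 2) * B₁ + 2 * A₀ * B₀ * A₁,
    (A₁ ^ 2 + 3 * m * B₁ ^ 2) * B₀ + 2 * A₁ * B₁ * A₀, A₁ ^ 2 * B₁ + m * B₁ ^ 3]

theorem ga_map {A B : Type} [CommRing A] [CommRing B] (f : A →+* B) (m A₀ B₀ A₁ B₁ : A)
    (i : Fin 4) : ga (f m) (f A₀) (f B₀) (f A₁) (f B₁) i = f (ga m A₀ B₀ A₁ B₁ i) := by
  fin_cases i <;> simp [ga, map_ofNat]

theorem cu_sub {A : Type} [CommRing A] {m s : A} (hs : s ^ 2 = 3 * m) (A₀ B₀ A₁ B₁ : A)
    (i : Fin 4) : cu (A₀ + B₀ * s) (A₁ + B₁ * s) i - cu (A₀ - B₀ * s) (A₁ - B₁ * s) i =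
      6 * ga m A₀ B₀ A₁ B₁ i * s := by
  have h3 : s ^ 3 = 3 * m * s := by rw [pow_succ, hs]
  fin_cases i <;> simp only [cu, ga, Fin.zero_eta, Fin.mk_one, Fin.reduceFinMk, Matrix.cons_val]
  · linear_combination (2 * B₀ ^ 3) * h3
  · linear_combination (6 * B₀ ^ 2 * B₁) * h3
  · linear_combination (6 * B₁ ^ 2 * B₀) * h3
  · linear_combination (2 * B₁ ^ 3) * h3

theorem gval_ga {A : Type} [CommRing A] (m A₀ B₀ A₁ B₁ : A) :
    gval (ga m A₀ B₀ A₁ B₁) B₁ (-B₀) = 0 := by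
  simp only [gval, ga, Matrix.cons_val]
  ring

/-- FLA. -/
theorem fla (dvp : DvpStmt) : FlaStmt := by
  obtain ⟨dvp1, _, dvp3⟩ := dvp
  intro k K _ _ _ _ _ B m s c hq hF p M h3 ν X Y X' Y' Z W F hν hdet hc hZ hW
  obtain ⟨_, h2, hb, hdiv⟩ := dvp1 k B m p hF h3
  set f : 𝓞 k →+* 𝓞 K := algebraMap (𝓞 k) (𝓞 K) with hf
  have hs : s ^ 2 = 3 * f m := by
    apply RingOfIntegers.ext
    have := hq.sq
    rw [map_mul] at this
    push_cast
    rw [this]
    simp only [map_ofNat]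
    rfl
  have hνp : ν ∉ p.asIdeal := by
    intro h
    apply p.isPrime.ne_top
    rw [Ideal.eq_top_iff_one]
    have := p.asIdeal.sub_mem h hν
    rwa [sub_sub_cancel] at this
  set e : 𝓞 k := 8 * (B.b : 𝓞 k) ^ 3 * ν ^ 3 with he
  have hep : e ∉ p.asIdeal := by
    have hp := p.isPrime
    intro h
    rcases hp.mem_or_mem h with h | h
    · rcases hp.mem_or_mem h with h | h
      · have : (8 : 𝓞 k) = 2 ^ 3 := by norm_num
        rw [this] at h
        exact h2 (hp.mem_of_pow_mem _ h)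
      · exact hb (hp.mem_of_pow_mem _ h)
    · exact hνp (hp.mem_of_pow_mem _ h)
  -- an inverse of `e`
  obtain ⟨r, hr⟩ : ∃ r : 𝓞 k, r * e - 1 ∈ p.asIdeal ^ M := by
    have hmax : p.asIdeal.IsMaximal := p.isMaximal
    have hcop : IsCoprime (Ideal.span {e}) (p.asIdeal ^ M) := by
      apply IsCoprime.pow_right
      rw [Ideal.isCoprime_iff_sup_eq]
      apply hmax.out.2
      refine lt_of_le_of_ne le_sup_right fun h => hep ?_
      rw [h]
      exact Ideal.mem_sup_left (Ideal.mem_span_singleton_self e)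
    obtain ⟨x, hx, y, hy, hxy⟩ := Ideal.isCoprime_iff_exists.1 hcop
    obtain ⟨r, rfl⟩ := Ideal.mem_span_singleton'.1 hx
    refine ⟨r, ?_⟩
    have : r * e - 1 = -y := by rw [← hxy]; ring
    rw [this]
    exact (p.asIdeal ^ M).neg_mem hy
  set G := ga m ((B.b : 𝓞 k) * X) ((B.b : 𝓞 k) * Y) X' Y' with hG
  have key : ∀ i, e * F i - 18 * G i ∈ p.asIdeal ^ M := by
    intro i
    apply hdiv M
    apply dvp3 k K
    have e1 := cu_sub hs (f ((B.b : 𝓞 k) * X)) (f ((B.b : 𝓞 k) * Y)) (f X') (f Y') i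
    rw [ga_map] at e1
    have e2 := hc i
    have e3 : (B.b : 𝓞 K) * (f X + f Y * s) = f ((B.b : 𝓞 k) * X) + f ((B.b : 𝓞 k) * Y) * s := by
      rw [map_mul, map_mul, map_natCast]; ring
    have e4 : (B.b : 𝓞 K) * (f X - f Y * s) = f ((B.b : 𝓞 k) * X) - f ((B.b : 𝓞 k) * Y) * s := by
      rw [map_mul, map_mul, map_natCast]; ring
    rw [e3, e4] at e2
    set C1 := cu (f ((B.b : 𝓞 k) * X) + f ((B.b : 𝓞 k) * Y) * s) (f X' + f Y' * s) i
    set C2 := cu (f ((B.b : 𝓞 k) * X) - f ((B.b : 𝓞 k) * Y) * s) (f X' - f Y' * s) i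
    have e5 : f (3 * m * (e * F i - 18 * G i)) =
        s * (3 * C1 * (W - 1)) - s * (3 * C2 * (Z - 1)) := by
      have e6 : f (e * F i) * s = 8 * (B.b : 𝓞 K) ^ 3 * f (ν ^ 3 * F i) * s := by
        rw [he]
        simp only [map_mul, map_pow, map_natCast, map_ofNat]
        ring
      have e7 : f (3 * m * (e * F i - 18 * G i)) = s * (f (e * F i) * s) - 18 * f (G i) * s ^ 2 := by
        have e8 : f (3 * m * (e * F i - 18 * G i)) = 3 * f m * (f (e * F i) - 18 * f (G i)) := by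
          simp only [map_mul, map_sub, map_ofNat]
        rw [e8]
        linear_combination (-(f (e * F i)) + 18 * f (G i)) * hs
      rw [e7, e6, e2]
      linear_combination (3 * s) * e1
    rw [e5]
    exact Ideal.sub_mem _ (Ideal.mul_mem_left _ _ (Ideal.mul_mem_left _ _ hW))
      (Ideal.mul_mem_left _ _ (Ideal.mul_mem_left _ _ hZ))
  constructor
  · intro i
    have e1 : F i = r * (e * F i - 18 * G i) - (r * e - 1) * F i + 9 * (2 * r * G i) := by ring
    rw [e1]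
    exact Ideal.add_mem _ (Ideal.mem_sup_right (Ideal.sub_mem _ (Ideal.mul_mem_left _ _ (key i))
      (Ideal.mul_mem_right _ _ hr)))
      (Ideal.mem_sup_left (Ideal.mul_mem_right _ _ (Ideal.mem_span_singleton_self _)))
  · refine ⟨Y', -((B.b : 𝓞 k) * Y), ?_, ?_⟩
    · rintro ⟨h1, h4⟩
      have hp := p.isPrime
      have hY : Y ∈ p.asIdeal := by
        rcases hp.mem_or_mem (neg_mem_iff.1 h4) with h | h
        · exact absurd h hb
        · exact h
      have h5 : 2 * (B.b : 𝓞 k) ^ 2 * ν ∈ p.asIdeal := by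
        have h6 : 2 * (B.b : 𝓞 k) ^ 2 * ν = X' * Y - X * Y' := by linear_combination hdet
        rw [h6]
        exact Ideal.sub_mem _ (Ideal.mul_mem_left _ _ hY) (Ideal.mul_mem_left _ _ h1)
      rcases hp.mem_or_mem h5 with h | h
      · rcases hp.mem_or_mem h with h | h
        · exact h2 h
        · exact hb (hp.mem_of_pow_mem _ h)
      · exact hνp h
    · have e1 : gval F Y' (-((B.b : 𝓞 k) * Y)) =
          r * gval (fun i => e * F i - 18 * G i) Y' (-((B.b : 𝓞 k) * Y)) -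
            (r * e - 1) * gval F Y' (-((B.b : 𝓞 k) * Y)) +
            18 * r * gval G Y' (-((B.b : 𝓞 k) * Y)) := by
        simp only [gval]
        ring
      rw [e1, hG, gval_ga, mul_zero, add_zero]
      refine Ideal.sub_mem _ (Ideal.mul_mem_left _ _ ?_) (Ideal.mul_mem_right _ _ hr)
      simp only [gval]
      exact Ideal.add_mem _ (Ideal.add_mem _ (Ideal.add_mem _ (Ideal.mul_mem_right _ _ (key 0))
        (Ideal.mul_mem_right _ _ (Ideal.mul_mem_right _ _ (key 1))))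
        (Ideal.mul_mem_right _ _ (Ideal.mul_mem_right _ _ (key 2))))
        (Ideal.mul_mem_right _ _ (key 3))

end Pool.Agent.LeoD.H33
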